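import Pool.Agent.W595.PT.Stms

set_option autoImplicit false

namespace Pool.Agent.W193.PT

universe u

open Pool.Agent.W595.PT Gam

section
variable {L : Type u} [Ring L]

/-- the contraction -/
def sg (x : Gam L) : Gam L := ⟨fun q => bN x q, 0⟩

@[simp] lemma sg_a (x : Gam L) (q : Fin 7) : (sg x).a q = bN x q := rfl
@[simp] lemma sg_b (x : Gam L) : (sg x).b = 0 := rfl

lemma sg_zero : sg (0 : Gam L) = 0 := by ext <;> simp
lemma sg_add (x y : Gam L) : sg (x + y) = sg x + sg y := by ext <;> simp
lemma sg_sum {ι : Type*} (s : Finset ι) (f : ι → Gam L) :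
    sg (∑ i ∈ s, f i) = ∑ i ∈ s, sg (f i) := by
  classical
  induction s using Finset.induction_on with
  | empty => simp [sg_zero]
  | insert x s hx ih => rw [Finset.sum_insert hx, Finset.sum_insert hx, sg_add, ih]

lemma sg_io (l : L) (x : Gam L) : sg (io l * x) = io l * sg x := by
  ext q
  · rw [sg_a, mul_a, sg_a, io_a, bN_mul, bN_io, zero_mul, add_zero]
    by_cases h : (q : ℕ) < 6
    · rw [aN_io l (by omega : (q : ℕ) + 1 < 7)]
    · simp [bN, h]
  · simp

lemma mem_Lid {x : Gam L} : x ∈ Lid L ↔ x * po 6 = 0 := Iff.rfl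

lemma sg_mem (x : Gam L) : sg x ∈ Lid L := by
  rw [mem_Lid]
  ext q
  · by_cases h : (q : ℕ) = 6
    · simp [h, bN]
    · simp [h]
  · simp

lemma a6_of_mem {x : Gam L} (hx : x ∈ Lid L) (q : Fin 7) (hq : (q : ℕ) = 6) : x.a q = 0 := by
  rw [mem_Lid] at hx
  have h := congrArg (fun y => y.a q) hx
  simpa [hq] using h

lemma sg_de {x : Gam L} (hx : x ∈ Lid L) : sg (de * x) + de * sg x = x := by
  ext q
  · rw [add_a, Pi.add_apply, sg_a, mul_a, de_a]
    by_cases h : (q : ℕ) < 6
    · have : bN (de * x) (q : ℕ) = x.a q := by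
        rw [bN_mul, bN_de h, aN_de]
        simp [aN]
      rw [this]; simp
    · have h6 : (q : ℕ) = 6 := by omega
      rw [a6_of_mem hx q h6]
      simp [bN, h6]
  · simp [bN]

lemma two_zero (h2 : (2 : L) = 0) (x : Gam L) : x + x = 0 := by
  have hL : ∀ y : L, y + y = 0 := fun y => by rw [← two_mul, h2, zero_mul]
  ext q
  · simp [hL]
  · simp [hL]

lemma po_mem_iff {e : L} {p : ℕ} {x : Gam L} (hx : (io e * po (p + 1)) * x = x) :
    (io e * po p) * sg x = sg x := by
  ext q
  · rw [mul_a, mul_a, io_a, po_a, sg_a]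
    by_cases h : (q : ℕ) < 6
    · have h1 := congrArg (fun y => y.b ⟨q, h⟩) hx
      simp only [mul_b, mul_a, io_a, po_a, io_b, po_b, Pi.zero_apply, Fin.val_succ, mul_zero,
        zero_mul, add_zero] at h1
      have h2 : bN x (q : ℕ) = x.b ⟨q, h⟩ := by simp [bN, h]
      rw [h2]
      by_cases h3 : (q : ℕ) = p
      · simpa [h3] using h1
      · have h4 : x.b ⟨q, h⟩ = 0 := by
          rw [← h1]; simp [h3]
        rw [h4]; simp
    · simp [bN, h]
  · simp

end

theorem s_LID : S_LID.{u} := by
  intro L _ h2 A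
  have key : ∀ w : Fin A.n → Lid L, A.D w = 0 →
      A.D (fun v => (⟨sg (w v : Gam L), sg_mem _⟩ : Lid L)) = w := by
    intro w hw
    funext v
    apply Subtype.ext
    have h1 : ((A.D w v : Lid L) : Gam L) = 0 := by rw [hw]; rfl
    simp only [TC.D, Submodule.coe_add, Submodule.coe_smul, smul_eq_mul,
      Submodule.coe_sum] at h1 ⊢
    have h3 := congrArg sg h1
    rw [sg_add, sg_sum, sg_zero] at h3
    have h4 : ∑ z, io (A.m v z) * sg (w z : Gam L) = sg (de * (w v : Gam L)) := by
      have h5 : ∑ z, sg (io (A.m v z) * (w z : Gam L)) = ∑ z, io (A.m v z) * sg (w z : Gam L) :=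
        Finset.sum_congr rfl fun z _ => sg_io _ _
      rw [h5] at h3
      have h6 := two_zero h2 (sg (de * (w v : Gam L)))
      exact add_left_cancel (h3.trans h6.symm)
    rw [h4, add_comm]
    exact sg_de (w v).2
  refine ⟨fun i w hE hw => ⟨_, ?_, key w hw⟩, fun w hF hw => ⟨_, ?_, key w hw⟩⟩
  · intro v
    apply Subtype.ext
    have := congrArg (fun y : Lid L => (y : Gam L)) (hE v)
    simp only [Submodule.coe_smul, smul_eq_mul] at this ⊢
    exact po_mem_iff (by simpa [add_assoc] using this)
  · intro v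
    apply Subtype.ext
    have := congrArg (fun y : Lid L => (y : Gam L)) (hF v)
    simp only [Submodule.coe_smul, smul_eq_mul] at this ⊢
    rw [← sg_io, this]

theorem s_PROJ : S_PROJ.{u} := by
  intro L _
  refine Module.Projective.of_split (Lid L).subtype
    ({ toFun := fun x => ⟨x * (1 - po 6), ?_⟩
       map_add' := ?_
       map_smul' := ?_ } : Gam L →ₗ[Gam L] Lid L) ?_
  · rw [mem_Lid, mul_assoc, sub_mul, po_po, one_mul, sub_self, mul_zero]
  · intro x y
    apply Subtype.ext
    simp [add_mul]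
  · intro c x
    apply Subtype.ext
    simp [mul_assoc]
  · ext x : 1
    apply Subtype.ext
    have hx := mem_Lid.1 x.2
    simp [mul_sub, hx]

theorem s_NACYC : S_NACYC.{u} := by
  intro L _ Z v0 hv0 hm hA
  classical
  set eps : Gam L := io (Z.e v0) * po 6 with heps
  have hz0 : ∀ v, Z.m v v0 = 0 := by
    intro v
    have := hm v v0 1
    rwa [mul_one, Z.me] at this
  have hee : eps * eps = eps := by
    rw [heps, io_po, mul_assoc, ← mul_assoc (io _) (po 6), io_po, mul_assoc (po 6), ← map_mul,
      Z.ee, ← mul_assoc, po_po]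
  have hde : (de : Gam L) * eps = 0 := by
    rw [heps, ← mul_assoc, ← io_de, mul_assoc, ← po_de, po_large (by norm_num), zero_mul,
      mul_zero]
  obtain ⟨z, -, hz⟩ := hA (fun v => if v = v0 then eps else 0) (by
    intro v
    by_cases h : v = v0
    · subst h
      simp only [if_true, smul_eq_mul]
      rw [heps, ← mul_assoc, ← map_mul, Z.ee]
    · simp [h]) (by
    funext v
    simp only [TC.D, smul_eq_mul, Pi.zero_apply, mul_ite, mul_zero, Finset.sum_ite_eq',
      Finset.mem_univ, if_true, hz0, map_zero, zero_mul, add_zero]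
    split_ifs
    · exact hde
    · rfl)
  have h1 := congrFun hz v0
  simp only [TC.D, smul_eq_mul, if_true] at h1
  have h2 := congrArg (fun y => y * eps) h1
  simp only [hee] at h2
  have h3 : ∀ x : Gam L, (de : Gam L) * x * eps = 0 := by
    intro x
    rw [heps, ← mul_assoc]
    ext q
    · simp
    · have := q.2
      have h : ¬ (q : ℕ) = 6 := by omega
      simp [h]
  have h4 : ∀ (w : Fin Z.n) (x : Gam L), io (Z.m v0 w) * x * eps = 0 := by
    intro w x
    rw [heps, ← mul_assoc]
    ext q
    · by_cases h : (q : ℕ) = 6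
      · simpa [h] using hm v0 w (x.a q)
      · simp [h]
    · have := q.2
      have h : ¬ (q : ℕ) = 6 := by omega
      simp [h]
  rw [add_mul, h3, zero_add, Finset.sum_mul, Finset.sum_eq_zero (fun w _ => h4 w _)] at h2
  apply hv0
  have h5 := congrArg (fun y => y.a 6) h2
  simpa [heps] using h5.symm

end Pool.Agent.W193.PT

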